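import Mathlib
import Pool.Agent.H17.DOm

set_option autoImplicit false

namespace Pool.Agent.Results.MP_549d70_gt.Games
open Set Pool.Agent.H17.DO

/-- The moves made in innings `0, …, n - 1`. -/
def prev {α : Type} (a : ℕ → α) (n : ℕ) : List α := List.ofFn fun i : Fin n => a i

/-- ONE has a winning strategy in the single selection game. -/
def OneWins1 (X : Type) [TopologicalSpace X] : Prop :=
  ∃ τ : List (Set X) → Set (Set X), (∀ l, DOm X (τ l)) ∧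
    ∀ U : ℕ → Set X, (∀ n, U n ∈ τ (prev U n)) → ¬ DOm X (range U)

/-- ONE has a winning strategy in the finite selection game. -/
def OneWinsFin (X : Type) [TopologicalSpace X] : Prop :=
  ∃ τ : List (Set (Set X)) → Set (Set X), (∀ l, DOm X (τ l)) ∧
    ∀ ℱ : ℕ → Set (Set X), (∀ n, ℱ n ⊆ τ (prev ℱ n) ∧ (ℱ n).Finite) → ¬ DOm X (⋃ n, ℱ n)

theorem result (X : Type) [TopologicalSpace X] :
    (S1 X ↔ ¬ OneWins1 X) ∧ (Sfin X ↔ ¬ OneWinsFin X) := by
  refine ⟨⟨fun h ⟨τ, h1, h2⟩ => ?_, fun h 𝒰 h𝒰 => ?_⟩, fun h ⟨τ, h1, h2⟩ => ?_, fun h 𝒰 h𝒰 => ?_⟩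
  · obtain ⟨U, h3, h4⟩ := game_one h τ h1
    exact h2 U h3 h4
  · by_contra hc
    refine h ⟨fun l => 𝒰 l.length, fun l => h𝒰 _, fun U hU hd => hc ⟨U, fun n => ?_, hd⟩⟩
    simpa [prev] using hU n
  · obtain ⟨U, h3, h4⟩ := game_fin h τ h1
    exact h2 U h3 h4
  · by_contra hc
    refine h ⟨fun l => 𝒰 l.length, fun l => h𝒰 _, fun U hU hd => hc ⟨U, fun n => ?_, hd⟩⟩
    simpa [prev] using hU n

end Pool.Agent.Results.MP_549d70_gt.Games
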